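import Pool.Agent.H225.MX2

/-!
# Many simultaneous almost primes in both Oppermann intervals with exact neighbourhoods

Let `b ≥ 2` be a base, let `x` be ANY number and let `M ≥ x^2 - x` and the shifts `e 1, …, e s` be ANY
numbers, such that each of the blocks `[M + e i, M + e i + b^K + c K]` lies in `[x^2 - x, x^2]` or in `[x^2, x^2 + x]` (with
`x^2 + x ≤ b^{DK}`) and the distances of the shifts are larger than `c K`, and let `P` be ANY set of `k` pairs `(i, h)` with `1 ≤ i ≤ s`,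
`0 ≤ h ≤ c K`, such that no prime divides one of the numbers `m + e i + h`, `(i, h) ∈ P`, for all `m`.  For
`m = M + n`, let the digits of `n < b^K` be restricted: the `i`-th digit belongs to a set `A i`, where the
sets `A i` are arbitrary, depend on the place `i < K`, and have the only property that the number `∏ |A i|`
of these `n` is at least `e^{-δK} b^K`, where the constant `δ > 0` does not depend on `b`.

Then the sieve product `V` is at least `κ / K^k`, and (if the last digit can be chosen such that these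
numbers are prime to `b`) for at least `κ V ∏ |A i|` of these `n` the numbers `m + e i + h`, `(i, h) ∈ P`, have
at most `r` prime factors, all larger than `b^{K/r}`, while ALL other numbers `m + e i + j`, `i ≤ s`,
`0 ≤ j ≤ c K`, have a prime factor `≤ b^{K/r}`: ALL the neighbourhoods of the numbers `m + e i` are prescribed
exactly on the scale of the mean distance.  For at most `C V ∏ |A i|` of these `n` the numbers `m + e i + h`,
`(i, h) ∈ P`, are all prime.  The constants depend only on `s`, `k`, `D`, `r`, `b`.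

The method is a Brun–Hooley sieve with weights, whose level of distribution is obtained from the Fourier
transform of the set of the integers with restricted digits at rationals (large sieve in blocks of
digits), see `Pool/Agent/Y816/PD`; the other numbers are excluded by the upper bound for patterns with one
more element near one of the members and an average of the sieve products, in which the coincidences
modulo `p` of the different members are controlled uniformly, see `Pool/Agent/H225/MX`, `MX2`.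
-/

set_option autoImplicit false

namespace Pool.Agent.Results.MP_1e9cc8_nt.ExactNeighbourhoods

open Finset Filter

/-- `p` divides one of the numbers `y + e i + h`, where `(i, h) ∈ P`. -/
def Bad {s : ℕ} (e : Fin s → ℕ) (P : Finset (Fin s × ℕ)) (p y : ℕ) : Prop :=
  ∃ x ∈ P, p ∣ y + e x.1 + x.2

/-- No prime is bad for all `y`. -/
def Admissible {s : ℕ} (e : Fin s → ℕ) (P : Finset (Fin s × ℕ)) : Prop :=
  ∀ p : ℕ, p.Prime → ∃ y : ℕ, ¬ Bad e P p y

open Classical in
/-- The number of the `y` modulo `p` for which `p` is bad. -/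
noncomputable def nu {s : ℕ} (e : Fin s → ℕ) (P : Finset (Fin s × ℕ)) (p : ℕ) : ℕ :=
  ((range p).filter (fun y : ℕ => Bad e P p y)).card

/-- The product of `1 - nu p / p` over the primes `p ≤ x`. -/
noncomputable def V {s : ℕ} (e : Fin s → ℕ) (P : Finset (Fin s × ℕ)) (x : ℕ) : ℝ :=
  ∏ p ∈ (Icc 1 x).filter Nat.Prime, (1 - (nu e P p : ℝ) / p)

open Classical in
/-- The number of the `n < b ^ K` in `T`, whose `i`-th digit in base `b` belongs to `A i` for all
`i < K`. -/
noncomputable def count (b K : ℕ) (A : ℕ → Finset ℕ) (T : Set ℕ) : ℕ :=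
  ((range (b ^ K)).filter (fun n => (∀ i < K, n / b ^ i % b ∈ A i) ∧ n ∈ T)).card

/-- The number of choices of the digits. -/
noncomputable def choices (K : ℕ) (A : ℕ → Finset ℕ) : ℝ := ∏ i ∈ range K, ((A i).card : ℝ)

/-- All prime factors of `m` are larger than `z ^ (1 / r)`. -/
def Rough (r z m : ℕ) : Prop := ∀ p : ℕ, p.Prime → p ∣ m → z < p ^ r

/-- `m` has at most `r` prime factors, all larger than `z ^ (1 / r)`. -/
def AlmostPrime (r z m : ℕ) : Prop := Rough r z m ∧ m.primeFactorsList.length ≤ r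

open Pool.Agent.Y816.PD (ND ND_sub)
open Pool.Agent.H225.MX (fm Oc Adm)

lemma fm_eq {s : ℕ} (e : Fin s → ℕ) (x : Fin s × ℕ) (y : ℕ) :
    fm (fun _ => 1) (fun i => (e i : ℤ)) x y = ((y + e x.1 + x.2 : ℕ) : ℤ) := by
  unfold fm
  push_cast
  ring

lemma Oc_iff {s : ℕ} (e : Fin s → ℕ) (P : Finset (Fin s × ℕ)) (p y : ℕ) :
    Oc (fun _ => 1) (fun i => (e i : ℤ)) P p y ↔ Bad e P p y := by
  refine exists_congr fun x => and_congr_right fun _ => ?_
  rw [fm_eq]
  exact Int.natCast_dvd_natCast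

lemma V_eq {s : ℕ} (e : Fin s → ℕ) (P : Finset (Fin s × ℕ)) (x : ℕ) :
    Pool.Agent.H225.MX.V (fun _ => 1) (fun i => (e i : ℤ)) P x = V e P x := by
  classical
  unfold V Pool.Agent.H225.MX.V
  refine prod_congr rfl fun p _ => ?_
  have h : Pool.Agent.H225.MX.nu (fun _ => 1) (fun i => (e i : ℤ)) P p = nu e P p := by
    unfold nu Pool.Agent.H225.MX.nu
    congr 1
    refine filter_congr fun y _ => ?_
    exact Oc_iff e P p y
  rw [h]

/-- **Many simultaneous almost primes in both Oppermann intervals with exact neighbourhoods.** -/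
theorem result (s k D : ℕ) (hk : 1 ≤ k) :
    ∃ δ : ℝ, 0 < δ ∧ ∃ r₀ : ℕ, 2 ≤ r₀ ∧ ∀ r : ℕ, r₀ ≤ r → ∀ b : ℕ, 2 ≤ b →
      ∃ κ C c : ℝ, 0 < κ ∧ 0 < C ∧ 0 < c ∧ ∀ᶠ K : ℕ in atTop, ∀ x M : ℕ, x ^ 2 ≤ M + x → x ^ 2 + x ≤ b ^ (D * K) →
        ∀ e : Fin s → ℕ, (∀ i, (M : ℝ) + e i + (b : ℝ) ^ K + c * K ≤ (x : ℝ) ^ 2 ∨
          x ^ 2 ≤ M + e i ∧ (M : ℝ) + e i + (b : ℝ) ^ K + c * K ≤ (x : ℝ) ^ 2 + x) →
        (∀ i i' : Fin s, i ≠ i' → (e i : ℝ) + c * K < e i' ∨ (e i' : ℝ) + c * K < e i) →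
        ∀ P : Finset (Fin s × ℕ), P.card = k → (∀ x ∈ P, (x.2 : ℝ) ≤ c * K) → Admissible e P →
        ∀ A : ℕ → Finset ℕ, (∀ i < K, A i ⊆ range b) →
        (b : ℝ) ^ K ≤ Real.exp (δ * K) * choices K A →
        κ / (K : ℝ) ^ k ≤ V e P (b ^ K) ∧
        ((∃ d ∈ A 0, ∀ x ∈ P, (M + d + e x.1 + x.2).Coprime b) → (∃ d ∈ A (K - 1), d ≠ 0) →
          κ * choices K A * V e P (b ^ K) ≤
            count b K A {n | (∀ y ∈ P, (M + e y.1 < x ^ 2 → M + n + e y.1 + y.2 < x ^ 2 ∧
                x ^ 2 < M + n + e y.1 + y.2 + x) ∧ (x ^ 2 ≤ M + e y.1 →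
                x ^ 2 < M + n + e y.1 + y.2 ∧ M + n + e y.1 + y.2 < x ^ 2 + x) ∧
                AlmostPrime r (b ^ K) (M + n + e y.1 + y.2)) ∧
              ∀ x : Fin s × ℕ, (x.2 : ℝ) ≤ c * K → x ∉ P →
                ¬ Rough r (b ^ K) (M + n + e x.1 + x.2)}) ∧
        (count b K A {n | ∀ x ∈ P, (M + n + e x.1 + x.2).Prime} : ℝ) ≤
          C * choices K A * V e P (b ^ K) := by
  obtain ⟨δ, hδ, r₀, hr₀, h⟩ := Pool.Agent.H225.MX.exact (fun _ : Fin s => (1 : ℤ))
    (fun _ => one_ne_zero) k D hk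
  refine ⟨δ, hδ, r₀, hr₀, fun r hr b hb => ?_⟩
  obtain ⟨κ, C, c, hκ, hC, hc, h1⟩ := h r hr b hb
  refine ⟨κ, C, c, hκ, hC, hc, ?_⟩
  filter_upwards [h1, eventually_ge_atTop 2] with
    K hK hK2 x M hxM hxD e hMe hsep P hPk hPc hadm A hA hprod
  have hbK1 : 2 ≤ b ^ (K - 1) := hb.trans (Nat.le_self_pow (by omega) b)
  have hcK : 0 ≤ c * (K : ℝ) := by positivity
  have hbr : (1 : ℝ) ≤ (b : ℝ) ^ K := one_le_pow₀ (by exact_mod_cast (by omega : 1 ≤ b))
  have hx0 : (0 : ℝ) ≤ x := Nat.cast_nonneg _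
  have hall : ∀ i, M + e i ≤ x ^ 2 + x := fun i => by
    have h6 : ((M + e i : ℕ) : ℝ) ≤ ((x ^ 2 + x : ℕ) : ℝ) := by
      push_cast
      rcases hMe i with h5 | ⟨-, h5⟩ <;> linarith
    exact_mod_cast h6
  have he : ∀ i, e i ≤ b ^ (D * K) := fun i => by
    have := hall i
    omega
  have hM : M ≤ b ^ (D * K) := by
    obtain ⟨y, hy⟩ := card_pos.1 (by omega : 0 < P.card)
    have := hall y.1
    omega
  have hadm' : Adm (fun _ => 1) (fun i => (e i : ℤ)) P := fun p hp => by
    obtain ⟨y, hy⟩ := hadm p hp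
    exact ⟨y, fun h => hy ((Oc_iff e P p y).1 h)⟩
  obtain ⟨h2, h3, h4⟩ := hK M hM (fun i => (e i : ℤ)) (fun i => by
      rw [Int.natAbs_natCast]
      exact he i) P hPk hPc hadm' (fun x hx y hxy hy _ hcon => by
      rw [one_mul, one_mul] at hcon
      have h5 : e y.1 + y.2 = e x.1 + x.2 := by exact_mod_cast hcon
      have h5' : (e y.1 : ℝ) + y.2 = e x.1 + x.2 := by exact_mod_cast h5
      have h6 := hPc x hx
      have h7 : (0 : ℝ) ≤ (x.2 : ℝ) := Nat.cast_nonneg _
      have h8 : (0 : ℝ) ≤ (y.2 : ℝ) := Nat.cast_nonneg _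
      rcases hsep x.1 y.1 hxy with h | h <;> linarith) A hA hprod
  rw [V_eq] at h2 h3 h4
  simp only [fm_eq, Int.natAbs_natCast] at h3 h4
  refine ⟨h2, fun hcop htop => (h3 hcop htop).trans (Nat.cast_le.2 (ND_sub fun n hn hn1 hn2 =>
    ⟨hn1, fun y hy => ⟨fun hlt => ?_, fun hge => ?_, hn2.2.1 y hy⟩, hn2.2.2⟩)),
    le_trans (Nat.cast_le.2 ?_) h4⟩
  · have h6 := hPc y hy
    have h7 : (n : ℝ) < (b : ℝ) ^ K := by exact_mod_cast hn
    have h9 := hn2.1
    rcases hMe y.1 with h5 | ⟨h5, -⟩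
    · have h8 : ((M + n + e y.1 + y.2 : ℕ) : ℝ) < ((x ^ 2 : ℕ) : ℝ) := by
        push_cast
        linarith
      have h8' : M + n + e y.1 + y.2 < x ^ 2 := by exact_mod_cast h8
      exact ⟨h8', by omega⟩
    · omega
  · have h6 := hPc y hy
    have h7 : (n : ℝ) < (b : ℝ) ^ K := by exact_mod_cast hn
    have h9 := hn2.1
    rcases hMe y.1 with h5 | ⟨-, h5⟩
    · exfalso
      have h8 : ((M + e y.1 : ℕ) : ℝ) < ((x ^ 2 : ℕ) : ℝ) := by
        push_cast
        linarith
      have h8' : M + e y.1 < x ^ 2 := by exact_mod_cast h8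
      omega
    · have h8 : ((M + n + e y.1 + y.2 : ℕ) : ℝ) < ((x ^ 2 + x : ℕ) : ℝ) := by
        push_cast
        linarith
      have h8' : M + n + e y.1 + y.2 < x ^ 2 + x := by exact_mod_cast h8
      exact ⟨by omega, h8'⟩
  refine ND_sub fun n hn hn1 hn2 => ⟨hn1, fun x hx p hp hpd => ?_⟩
  have hpr : (M + n + e x.1 + x.2).Prime := hn2 x hx
  rw [(Nat.prime_dvd_prime_iff_eq hp hpr).1 hpd]
  have h6 : (M + n + e x.1 + x.2) ^ 2 ≤ (M + n + e x.1 + x.2) ^ r :=
    Nat.pow_le_pow_right hpr.pos (hr₀.trans hr)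
  have h7 := hpr.two_le
  nlinarith

end Pool.Agent.Results.MP_1e9cc8_nt.ExactNeighbourhoods
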