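import Mathlib
import Pool.Agent.H274.Gaps

/-!
# The k-fold Oppermann conjecture for all integers in windows

Let `1 ≤ u_0, u_1, …` be reals with `∑ u_m^{-t} < ∞` for all `t > τ` (`τ = 0` for geometric sequences), `θ < 1`, and let
`σ ≥ 1` be such that the series of `(p_{k+1} - p_k)² p_k^{-s}` over all `k` converges for `s > σ` (`MeanSquare σ`). By partial
summation this says that the sum of `(p_{k+1} - p_k)²` over `p_k ≤ x` is `O(x^{σ + ε})`; it is known for `σ = 23/18`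
(Heath-Brown 1979), `σ = 5/4` (Peck 1996) and `σ = 1.23` (Stadlmann 2022). We show:

For all `a > 0` outside of a set of Hausdorff dimension at most `(2σ - 2 + τ) / (1 - θ)`, and for almost all `a > 0` if
`θ + τ < 3 - 2σ`: for EVERY `k`, for all large `m`, both intervals `(n² - n, n²)` and `(n², n² + n)` contain at least `k` primes,
for ALL integers `n` with `|n - a u_m| ≤ u_m^θ`.

With `σ = 1.23` and `u_m = b^m` this gives all integers in windows of length `b^{θ m}`, for every `θ < 0.54`.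

The proof: divide the intervals into `k` parts of length `⌊n/k⌋`. If a part has no primes it is in a gap; the parts are disjoint
for different `n`, so that the sum of `n²` over these `n ≤ N` is `O(N^{2σ + ε})`, and there are `O(N^{2σ - 2 + ε})` of them. The
`a` for which these are in infinitely many windows are covered by `Pool.Agent.Y854.GM.windows`.
-/

set_option autoImplicit false

namespace Pool.Agent.Results.MP_1e9cc8_nt.ManyPrimesInWindows

open Filter MeasureTheory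

/-- the primes `p 0 = 2, p 1 = 3, …` -/
noncomputable def p (k : ℕ) : ℕ := Nat.nth Nat.Prime k

/-- the mean square of the gaps up to `x` is `O(x^{σ - 1 + ε})`: the series of `(p_{k+1} - p_k)² p_k^{-s}` converges for
`s > σ` -/
def MeanSquare (σ : ℝ) : Prop := ∀ s : ℝ, σ < s →
  Summable fun k : ℕ => ((p (k + 1) - p k : ℕ) : ℝ) ^ 2 * (p k : ℝ) ^ (-s)

/-- the primes strictly between `x` and `y` -/
def primes (x y : ℕ) : Finset ℕ := (Finset.Ioo x y).filter Nat.Prime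

/-- both intervals of Oppermann contain at least `k` primes -/
def KFold (k n : ℕ) : Prop := k ≤ (primes (n ^ 2 - n) (n ^ 2)).card ∧ k ≤ (primes (n ^ 2) (n ^ 2 + n)).card

/-- `KFold k n` for all `n` in the windows around `a u_m`, for all large `m` -/
def Good (u : ℕ → ℝ) (θ a : ℝ) (k : ℕ) : Prop :=
  ∃ m₀ : ℕ, ∀ m : ℕ, m₀ ≤ m → ∀ n : ℕ, |(n : ℝ) - a * u m| ≤ u m ^ θ → KFold k n

/-- `k` parts with primes -/
theorem parts {x w k : ℕ} (h : ∀ j < k, ∃ q : ℕ, q.Prime ∧ x + j * w < q ∧ q < x + j * w + w) :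
    k ≤ (primes x (x + k * w)).card := by
  classical
  choose! q hq1 hq2 hq3 using h
  have hinj : Set.InjOn q (Finset.range k : Set ℕ) := by
    intro i hi j hj hij
    rw [Finset.coe_range, Set.mem_Iio] at hi hj
    by_contra hne
    rcases lt_or_gt_of_ne hne with hlt | hlt
    · have h1 := hq3 i hi
      have h2 := hq2 j hj
      have h3 : (i + 1) * w ≤ j * w := Nat.mul_le_mul_right _ hlt
      nlinarith
    · have h1 := hq3 j hj
      have h2 := hq2 i hi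
      have h3 : (j + 1) * w ≤ i * w := Nat.mul_le_mul_right _ hlt
      nlinarith
  have h1 : ((Finset.range k).image q).card = k := by
    rw [Finset.card_image_of_injOn hinj, Finset.card_range]
  have h2 : (Finset.range k).image q ⊆ primes x (x + k * w) := by
    intro y hy
    obtain ⟨j, hj, rfl⟩ := Finset.mem_image.1 hy
    rw [Finset.mem_range] at hj
    unfold primes
    rw [Finset.mem_filter, Finset.mem_Ioo]
    have h3 := hq2 j hj
    have h4 := hq3 j hj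
    have h5 : (j + 1) * w ≤ k * w := Nat.mul_le_mul_right _ hj
    refine ⟨⟨?_, ?_⟩, hq1 j hj⟩ <;> nlinarith
  have h3 := Finset.card_le_card h2
  omega

theorem primes_mono {x y y' : ℕ} (h : y ≤ y') : (primes x y).card ≤ (primes x y').card := by
  refine Finset.card_le_card fun q hq => ?_
  unfold primes at *
  rw [Finset.mem_filter, Finset.mem_Ioo] at *
  exact ⟨⟨hq.1.1, hq.1.2.trans_le h⟩, hq.2⟩

/-- one of the two kinds of intervals, and one of the parts -/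
theorem part {σ : ℝ} (hσ1 : 1 ≤ σ) (hMS : MeanSquare σ) {g : ℕ → ℕ} (h2 : ∀ n, 2 ≤ n → 2 ≤ g n) (hg : ∀ n, g n ≤ n ^ 2)
    (hdis : ∀ n n', 2 ≤ n → n < n' → g n + n ≤ g n') {k j : ℕ} (hj : j < k) {u : ℕ → ℝ} {τ θ : ℝ} (hu : ∀ m, 1 ≤ u m)
    (hτ : 0 ≤ τ) (hgrow : ∀ t : ℝ, τ < t → Summable fun m : ℕ => u m ^ (-t)) (hθ : θ < 1) :
    ∃ Z : Set ℝ, dimH Z ≤ ENNReal.ofReal ((2 * σ - 2 + τ) / (1 - θ)) ∧
      ∀ a : ℝ, 0 < a → a ∉ Z → ∃ m₀ : ℕ, ∀ m : ℕ, m₀ ≤ m → ∀ n : ℕ, 2 ≤ n → k ≤ n → |(n : ℝ) - a * u m| ≤ u m ^ θ →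
        ∃ q : ℕ, q.Prime ∧ g n + j * (n / k) < q ∧ q < g n + j * (n / k) + n / k := by
  have hk : 0 < k := by omega
  have hkr : (0 : ℝ) < k := by exact_mod_cast hk
  have hle : ∀ n : ℕ, j * (n / k) + n / k ≤ n := by
    intro n
    have h3 : (j + 1) * (n / k) ≤ k * (n / k) := Nat.mul_le_mul_right _ hj
    have h4 := Nat.mul_div_le n k
    nlinarith
  set E : Set ℕ := {n | (2 ≤ n ∧ k ≤ n) ∧ ∀ r : ℕ, r.Prime → ¬ (g n + j * (n / k) < r ∧ r < g n + j * (n / k) + n / k)} with hE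
  obtain ⟨Z, h1, h3⟩ := Pool.Agent.H274.Gaps.windows (q := 1) (B := Set.univ) (σ := σ) (γ := 1) (c := 1 / (2 * k))
    (by positivity)
    (fun s hs => by
      have := hMS s hs
      simpa [Pool.Agent.H274.Gaps.gap, Pool.Agent.H274.Gaps.p, p] using this)
    (f := fun n => g n + j * (n / k)) (w := fun n => n / k) (E := E) (by linarith) (by push_cast; linarith)
    (fun n hn => (h2 n hn.1.1).trans (Nat.le_add_right _ _))
    (fun n hn => by
      have h4 := hle n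
      have h5 := hg n
      have h6 := hn.1.1
      have h7 : n ≤ n ^ 2 := by nlinarith
      have h8 : 0 ≤ n / k := Nat.zero_le _
      linarith)
    (fun n hn => by
      rw [Real.rpow_one]
      have h4 : n < k * (n / k + 1) := Nat.lt_mul_div_succ n hk
      have h5 : 1 ≤ n / k := (Nat.one_le_div_iff hk).2 hn.1.2
      have h6 : n ≤ 2 * k * (n / k) := by nlinarith
      have h7 : (n : ℝ) ≤ 2 * k * ((n / k : ℕ) : ℝ) := by exact_mod_cast h6
      calc 1 / (2 * (k : ℝ)) * n ≤ 1 / (2 * (k : ℝ)) * (2 * k * ((n / k : ℕ) : ℝ)) :=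
            mul_le_mul_of_nonneg_left h7 (by positivity)
        _ = ((n / k : ℕ) : ℝ) := by field_simp)
    (fun n hn => hn.2)
    (fun n hn n' _ h => by
      have h4 := hle n
      have h5 := hdis n n' hn.1.1 h
      omega) (fun n _ => Set.mem_univ _) hu hτ hgrow hθ
  refine ⟨Z, h1.trans (le_of_eq ?_), fun a ha haZ => ?_⟩
  · congr 2
    push_cast
    ring
  · obtain ⟨m₀, hm₀⟩ := h3 a ha haZ
    refine ⟨m₀, fun m hm n hn hkn hnm => ?_⟩
    by_contra hcon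
    push Not at hcon
    exact absurd hnm (not_le.2 (hm₀ m hm n ⟨⟨hn, hkn⟩, fun r hr h => absurd h.2 (not_lt.2 (hcon r hr h.1))⟩))

/-- one of the two kinds of intervals -/
theorem side {σ : ℝ} (hσ1 : 1 ≤ σ) (hMS : MeanSquare σ) {g : ℕ → ℕ} (h2 : ∀ n, 2 ≤ n → 2 ≤ g n) (hg : ∀ n, g n ≤ n ^ 2)
    (hdis : ∀ n n', 2 ≤ n → n < n' → g n + n ≤ g n') (k : ℕ) {u : ℕ → ℝ} {τ θ : ℝ} (hu : ∀ m, 1 ≤ u m)
    (hτ : 0 ≤ τ) (hgrow : ∀ t : ℝ, τ < t → Summable fun m : ℕ => u m ^ (-t)) (hθ : θ < 1) :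
    ∃ Z : Set ℝ, dimH Z ≤ ENNReal.ofReal ((2 * σ - 2 + τ) / (1 - θ)) ∧
      ∀ a : ℝ, 0 < a → a ∉ Z → ∃ m₀ : ℕ, ∀ m : ℕ, m₀ ≤ m → ∀ n : ℕ, 2 ≤ n → k ≤ n → |(n : ℝ) - a * u m| ≤ u m ^ θ →
        k ≤ (primes (g n) (g n + n)).card := by
  classical
  choose Z hZ1 hZ2 using fun j : Fin k => part hσ1 hMS h2 hg hdis j.2 hu hτ hgrow hθ
  refine ⟨⋃ j, Z j, ?_, fun a ha haZ => ?_⟩
  · rw [dimH_iUnion]
    exact iSup_le hZ1
  · choose m₀ hm₀ using fun j : Fin k => hZ2 j a ha fun h => haZ (Set.mem_iUnion.2 ⟨j, h⟩)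
    refine ⟨Finset.univ.sup m₀, fun m hm n hn hkn hnm => ?_⟩
    have h3 : k ≤ (primes (g n) (g n + k * (n / k))).card := by
      refine parts fun j hj => ?_
      exact hm₀ ⟨j, hj⟩ m ((Finset.le_sup (f := m₀) (Finset.mem_univ _)).trans hm) n hn hkn hnm
    exact h3.trans (primes_mono (by have := Nat.mul_div_le n k; omega))

/-- small `n` are not in the windows -/
theorem small (N : ℕ) {s : ℝ} (hs : 0 ≤ s) {u : ℕ → ℝ} {τ θ : ℝ} (hu : ∀ m, 1 ≤ u m)
    (hτ : 0 ≤ τ) (hgrow : ∀ t : ℝ, τ < t → Summable fun m : ℕ => u m ^ (-t)) (hθ : θ < 1) :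
    ∃ Z : Set ℝ, dimH Z ≤ ENNReal.ofReal ((s + τ) / (1 - θ)) ∧
      ∀ a : ℝ, 0 < a → a ∉ Z → ∃ m₀ : ℕ, ∀ m : ℕ, m₀ ≤ m → ∀ n : ℕ, |(n : ℝ) - a * u m| ≤ u m ^ θ → N ≤ n := by
  obtain ⟨Z, h1, h3⟩ := Pool.Agent.Y854.GM.windows (Set.Iio N) (fun n : ℕ => (n : ℝ)) hu hτ hgrow hs hθ
    (fun ε hε => ⟨N, fun X hX => by
      have hfin : {n : ℕ | n ∈ Set.Iio N ∧ (n : ℝ) ≤ X}.Finite := (Set.finite_Iio N).subset fun n hn => hn.1
      refine ⟨hfin, ?_⟩
      have h4 : {n : ℕ | n ∈ Set.Iio N ∧ (n : ℝ) ≤ X}.ncard ≤ N := by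
        refine (Set.ncard_le_ncard (t := Set.Iio N) (fun n hn => hn.1) (Set.finite_Iio N)).trans (le_of_eq ?_)
        rw [← Finset.coe_Iio, Set.ncard_coe_finset, Nat.card_Iio]
      have h5 : 1 ≤ X ^ (s + ε) := Real.one_le_rpow hX (by linarith)
      calc ({n : ℕ | n ∈ Set.Iio N ∧ (n : ℝ) ≤ X}.ncard : ℝ) ≤ N := by exact_mod_cast h4
        _ ≤ N * X ^ (s + ε) := le_mul_of_one_le_right (Nat.cast_nonneg _) h5⟩)
  refine ⟨Z, h1, fun a ha haZ => ?_⟩
  obtain ⟨m₀, hm₀⟩ := h3 a ha haZ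
  refine ⟨m₀, fun m hm n hnm => ?_⟩
  by_contra hcon
  exact absurd hnm (not_le.2 (hm₀ m hm n (not_le.1 hcon)))

/-- **Theorem.** Let `σ ≥ 1` with `MeanSquare σ`, `1 ≤ u_m`, `∑_m u_m^{-t} < ∞` for all `t > τ`, `θ < 1`. For every `k` both
intervals of Oppermann contain at least `k` primes for all integers in the windows around `a u_m`, for all large `m`: for all
`a > 0` outside of a set of dimension at most `(2σ - 2 + τ) / (1 - θ)`, and for almost all `a > 0` if `θ + τ < 3 - 2σ`. -/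
theorem result (σ : ℝ) (hσ1 : 1 ≤ σ) (hMS : MeanSquare σ) (u : ℕ → ℝ) (τ θ : ℝ) (hu : ∀ m, 1 ≤ u m) (hτ : 0 ≤ τ)
    (hgrow : ∀ t : ℝ, τ < t → Summable fun m : ℕ => u m ^ (-t)) (hθ : θ < 1) :
    (∃ Z : Set ℝ, dimH Z ≤ ENNReal.ofReal ((2 * σ - 2 + τ) / (1 - θ)) ∧
      ∀ a : ℝ, 0 < a → a ∉ Z → ∀ k : ℕ, Good u θ a k) ∧
    (θ + τ < 3 - 2 * σ → ∀ᵐ a : ℝ, 0 < a → ∀ k : ℕ, Good u θ a k) := by
  have h1 : ∃ Z : Set ℝ, dimH Z ≤ ENNReal.ofReal ((2 * σ - 2 + τ) / (1 - θ)) ∧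
      ∀ a : ℝ, 0 < a → a ∉ Z → ∀ k : ℕ, Good u θ a k := by
    choose Z₀ hZ₀1 hZ₀2 using fun k : ℕ => small (max 2 k) (s := 2 * σ - 2) (by linarith) hu hτ hgrow hθ
    choose Z₁ hZ₁1 hZ₁2 using fun k : ℕ => side hσ1 hMS (g := fun n => n ^ 2) (fun n hn => by nlinarith)
      (fun n => le_rfl) (fun n n' hn h => by nlinarith) k hu hτ hgrow hθ
    choose Z₂ hZ₂1 hZ₂2 using fun k : ℕ => side hσ1 hMS (g := fun n => n ^ 2 - n)
      (fun n hn => by
        have : n + 2 ≤ n ^ 2 := by nlinarith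
        omega)
      (fun n => Nat.sub_le _ _)
      (fun n n' hn h => by
        have h3 : n ≤ n ^ 2 := by nlinarith
        have h4 : n ^ 2 + n' ≤ n' ^ 2 := by nlinarith
        omega) k hu hτ hgrow hθ
    refine ⟨⋃ k, (Z₀ k ∪ (Z₁ k ∪ Z₂ k)), ?_, fun a ha haZ k => ?_⟩
    · rw [dimH_iUnion]
      refine iSup_le fun k => ?_
      rw [dimH_union, dimH_union]
      exact max_le (hZ₀1 k) (max_le (hZ₁1 k) (hZ₂1 k))
    · obtain ⟨m₀, hm₀⟩ := hZ₀2 k a ha fun h => haZ (Set.mem_iUnion.2 ⟨k, Or.inl h⟩)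
      obtain ⟨m₁, hm₁⟩ := hZ₁2 k a ha fun h => haZ (Set.mem_iUnion.2 ⟨k, Or.inr (Or.inl h)⟩)
      obtain ⟨m₂, hm₂⟩ := hZ₂2 k a ha fun h => haZ (Set.mem_iUnion.2 ⟨k, Or.inr (Or.inr h)⟩)
      refine ⟨max m₀ (max m₁ m₂), fun m hm n hnm => ?_⟩
      have hn := hm₀ m ((le_max_left _ _).trans hm) n hnm
      have hn2 : 2 ≤ n := (le_max_left _ _).trans hn
      have hkn : k ≤ n := (le_max_right _ _).trans hn
      have h3 := hm₁ m (((le_max_left _ _).trans (le_max_right _ _)).trans hm) n hn2 hkn hnm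
      have h4 := hm₂ m (((le_max_right _ _).trans (le_max_right _ _)).trans hm) n hn2 hkn hnm
      refine ⟨?_, h3⟩
      have h5 : n ≤ n ^ 2 := by nlinarith
      simp only [Nat.sub_add_cancel h5] at h4
      exact h4
  refine ⟨h1, fun hθτ => ?_⟩
  obtain ⟨Z, hZ1, hZ2⟩ := h1
  have hnull : volume Z = 0 := by
    rw [← hausdorffMeasure_real]
    refine hausdorffMeasure_of_dimH_lt (d := 1) (hZ1.trans_lt ?_)
    have g1 : (2 * σ - 2 + τ) / (1 - θ) < 1 := by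
      rw [div_lt_one (by linarith)]
      linarith
    simpa using (ENNReal.ofReal_lt_one).2 g1
  filter_upwards [compl_mem_ae_iff.2 hnull] with a ha ha0
  exact hZ2 a ha0 ha

end Pool.Agent.Results.MP_1e9cc8_nt.ManyPrimesInWindows
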