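import Pool.Agent.Results.MP_1e9cc8_nt.ManyPrimesInWindows
import Pool.Agent.V1172.PW.GapsCount
import Pool.Agent.V1172.PW.Eng2

/-!
# The k-fold Oppermann conjecture for all integers in shrinking residue classes

Let `σ ≥ 1` be such that the series of `(p_{k+1} - p_k)² p_k^{-t}` over all `k` converges for `t > σ` (`MeanSquare σ` of
`ManyPrimesInWindows`). By partial summation this says that the sum of `(p_{k+1} - p_k)²` over `p_k ≤ x` is `O(x^{σ + ε})`; it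
is known for `σ = 23/18` (Heath-Brown 1979), `σ = 5/4` (Peck 1996) and `σ = 1.23` (Stadlmann 2022). Let `l` be a prime number and
`s > 0`. We show:

For all `l`-adic integers `a` outside of a set of Hausdorff dimension at most `(2σ - 2) / s` (`ℤ_l` has dimension one), for EVERY
`k` and all large `T`: ALL integers `n ≤ T` with `|n - a|_l ≤ T^{-s}`, that is, in the residue class of `a` modulo the least
power `l^f ≥ T^s`, have at least `k` primes in both intervals `(n² - n, n²)` and `(n², n² + n)`.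

With `σ = 1.23`: for every `s > 0.46`, for almost every `a`, this holds for all of the about `T^{1 - s}` integers up to `T` in
the class.
-/

set_option autoImplicit false

namespace Pool.Agent.Results.MP_1e9cc8_nt.SquaresInResidueClasses

open ManyPrimesInWindows (p MeanSquare primes KFold parts primes_mono)

/-- one of the two kinds of intervals, and one of the parts -/
theorem part {σ : ℝ} (hσ1 : 1 ≤ σ) (hMS : MeanSquare σ) {g : ℕ → ℕ} (h2 : ∀ n, 2 ≤ n → 2 ≤ g n) (hg : ∀ n, g n ≤ n ^ 2)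
    (hdis : ∀ n n', 2 ≤ n → n < n' → g n + n ≤ g n') {k j : ℕ} (hj : j < k) (l : ℕ) [Fact l.Prime] {s : ℝ} (hs : 0 < s) :
    ∃ Z : Set ℤ_[l], dimH Z ≤ ENNReal.ofReal ((2 * σ - 2) / s) ∧
      ∀ a : ℤ_[l], a ∉ Z → ∃ T₀ : ℝ, ∀ T : ℝ, T₀ ≤ T → ∀ n : ℕ, 2 ≤ n → k ≤ n → (n : ℝ) ≤ T →
        ‖(n : ℤ_[l]) - a‖ ≤ T ^ (-s) →
        ∃ q : ℕ, q.Prime ∧ g n + j * (n / k) < q ∧ q < g n + j * (n / k) + n / k := by
  have hk : 0 < k := by omega
  have hkr : (0 : ℝ) < k := by exact_mod_cast hk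
  have hle : ∀ n : ℕ, j * (n / k) + n / k ≤ n := by
    intro n
    have h3 : (j + 1) * (n / k) ≤ k * (n / k) := Nat.mul_le_mul_right _ hj
    have h4 := Nat.mul_div_le n k
    nlinarith
  set E : Set ℕ := {n | (2 ≤ n ∧ k ≤ n) ∧ ∀ r : ℕ, r.Prime → ¬ (g n + j * (n / k) < r ∧ r < g n + j * (n / k) + n / k)} with hE
  obtain ⟨Z, h1, h3⟩ := Pool.Agent.V1172.PW.objs l (P := ℕ) (fun n => (n : ℤ)) (ι := Unit) (fun _ => E)
    (s := 2 * σ - 2) (by linarith)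
    (fun _ ε hε => by
      obtain ⟨C, hC⟩ := Pool.Agent.V1172.PW.gaps_count (q := 1) (B := Set.univ) (σ := σ) (γ := 1) (c := 1 / (2 * k))
        (by positivity)
        (fun s hs => by
          have := hMS s hs
          simpa [Pool.Agent.H274.Gaps.gap, Pool.Agent.H274.Gaps.p, p] using this)
        (f := fun n => g n + j * (n / k)) (w := fun n => n / k) (E := E) (by linarith) (by push_cast; linarith)
        (fun n hn => (h2 n hn.1.1).trans (Nat.le_add_right _ _))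
        (fun n hn => by
          have h4 := hle n
          have h5 := hg n
          have h6 := hn.1.1
          have h7 : n ≤ n ^ 2 := by nlinarith
          have h8 : 0 ≤ n / k := Nat.zero_le _
          linarith)
        (fun n hn => by
          rw [Real.rpow_one]
          have h4 : n < k * (n / k + 1) := Nat.lt_mul_div_succ n hk
          have h5 : 1 ≤ n / k := (Nat.one_le_div_iff hk).2 hn.1.2
          have h6 : n ≤ 2 * k * (n / k) := by nlinarith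
          have h7 : (n : ℝ) ≤ 2 * k * ((n / k : ℕ) : ℝ) := by exact_mod_cast h6
          calc 1 / (2 * (k : ℝ)) * n ≤ 1 / (2 * (k : ℝ)) * (2 * k * ((n / k : ℕ) : ℝ)) :=
                mul_le_mul_of_nonneg_left h7 (by positivity)
            _ = ((n / k : ℕ) : ℝ) := by field_simp)
        (fun n hn => hn.2)
        (fun n hn n' _ h => by
          have h4 := hle n
          have h5 := hdis n n' hn.1.1 h
          omega) (fun n _ => Set.mem_univ _) hε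
      have e1 : 2 * σ - (((1 : ℕ) : ℝ) + 1) * 1 + ε = 2 * σ - 2 + ε := by
        push_cast
        ring
      rw [e1] at hC
      refine ⟨C, fun X hX => ?_⟩
      have e : {t : ℕ | t ∈ E ∧ |(((t : ℤ)) : ℝ)| ≤ X} = {n | n ∈ E ∧ (n : ℝ) ≤ X} := by
        ext v
        refine and_congr_right fun _ => ?_
        rw [Int.cast_natCast, Nat.abs_cast]
      rw [e]
      exact hC X hX) hs
  refine ⟨Z, h1, fun a ha => ?_⟩
  obtain ⟨T₀, hT⟩ := h3 a ha ()
  refine ⟨T₀, fun T hT1 n hn hkn hnT hna => ?_⟩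
  by_contra hcon
  push Not at hcon
  refine hT T hT1 n ?_ ?_ ⟨⟨hn, hkn⟩, fun r hr h => absurd h.2 (not_lt.2 (hcon r hr h.1))⟩
  · rw [Int.cast_natCast, Nat.abs_cast]
    exact hnT
  · rw [Int.cast_natCast]
    exact hna

/-- one of the two kinds of intervals -/
theorem side {σ : ℝ} (hσ1 : 1 ≤ σ) (hMS : MeanSquare σ) {g : ℕ → ℕ} (h2 : ∀ n, 2 ≤ n → 2 ≤ g n) (hg : ∀ n, g n ≤ n ^ 2)
    (hdis : ∀ n n', 2 ≤ n → n < n' → g n + n ≤ g n') (k : ℕ) (l : ℕ) [Fact l.Prime] {s : ℝ} (hs : 0 < s) :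
    ∃ Z : Set ℤ_[l], dimH Z ≤ ENNReal.ofReal ((2 * σ - 2) / s) ∧
      ∀ a : ℤ_[l], a ∉ Z → ∃ T₀ : ℝ, ∀ T : ℝ, T₀ ≤ T → ∀ n : ℕ, 2 ≤ n → k ≤ n → (n : ℝ) ≤ T →
        ‖(n : ℤ_[l]) - a‖ ≤ T ^ (-s) → k ≤ (primes (g n) (g n + n)).card := by
  classical
  choose Z hZ1 hZ2 using fun j : Fin k => part hσ1 hMS h2 hg hdis j.2 l hs
  refine ⟨⋃ j, Z j, ?_, fun a haZ => ?_⟩
  · rw [dimH_iUnion]
    exact iSup_le hZ1
  · choose T₀ hT₀ using fun j : Fin k => hZ2 j a fun h => haZ (Set.mem_iUnion.2 ⟨j, h⟩)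
    obtain ⟨T₁, hT₁⟩ : ∃ T₁ : ℝ, ∀ j, T₀ j ≤ T₁ := by
      obtain ⟨T₁, h⟩ := (Set.finite_range T₀).bddAbove
      exact ⟨T₁, fun j => h ⟨j, rfl⟩⟩
    refine ⟨T₁, fun T hT n hn hkn hnT hna => ?_⟩
    have h3 : k ≤ (primes (g n) (g n + k * (n / k))).card := by
      refine parts fun j hj => ?_
      exact hT₀ ⟨j, hj⟩ T ((hT₁ _).trans hT) n hn hkn hnT hna
    exact h3.trans (primes_mono (by have := Nat.mul_div_le n k; omega))

/-- small `n` are not near `a` -/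
theorem small (N : ℕ) {t : ℝ} (ht : 0 ≤ t) (l : ℕ) [Fact l.Prime] {s : ℝ} (hs : 0 < s) :
    ∃ Z : Set ℤ_[l], dimH Z ≤ ENNReal.ofReal (t / s) ∧
      ∀ a : ℤ_[l], a ∉ Z → ∃ T₀ : ℝ, ∀ T : ℝ, T₀ ≤ T → ∀ n : ℕ, (n : ℝ) ≤ T → ‖(n : ℤ_[l]) - a‖ ≤ T ^ (-s) → N ≤ n := by
  obtain ⟨Z, h1, h3⟩ := Pool.Agent.V1172.PW.objs l (P := ℕ) (fun n => (n : ℤ)) (ι := Unit) (fun _ => Set.Iio N)
    (s := t) ht
    (fun _ ε hε => ⟨N, fun X hX => by
      have hfin : {n : ℕ | n ∈ Set.Iio N ∧ |(((n : ℤ)) : ℝ)| ≤ X}.Finite :=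
        (Set.finite_Iio N).subset fun n hn => hn.1
      refine ⟨hfin, ?_⟩
      have h4 : {n : ℕ | n ∈ Set.Iio N ∧ |(((n : ℤ)) : ℝ)| ≤ X}.ncard ≤ N := by
        refine (Set.ncard_le_ncard (t := Set.Iio N) (fun n hn => hn.1) (Set.finite_Iio N)).trans (le_of_eq ?_)
        rw [← Finset.coe_Iio, Set.ncard_coe_finset, Nat.card_Iio]
      have h5 : 1 ≤ X ^ (t + ε) := Real.one_le_rpow hX (by linarith)
      calc ({n : ℕ | n ∈ Set.Iio N ∧ |(((n : ℤ)) : ℝ)| ≤ X}.ncard : ℝ) ≤ N := by exact_mod_cast h4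
        _ ≤ N * X ^ (t + ε) := le_mul_of_one_le_right (Nat.cast_nonneg _) h5⟩) hs
  refine ⟨Z, h1, fun a ha => ?_⟩
  obtain ⟨T₀, hT⟩ := h3 a ha ()
  refine ⟨T₀, fun T hT1 n hnT hna => ?_⟩
  by_contra hcon
  refine hT T hT1 n ?_ ?_ (not_le.1 hcon)
  · rw [Int.cast_natCast, Nat.abs_cast]
    exact hnT
  · rw [Int.cast_natCast]
    exact hna

/-- **Theorem.** Let `σ ≥ 1` with `MeanSquare σ`, `l` a prime and `s > 0`. For all `a ∈ ℤ_l` outside of a set of dimension at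
most `(2σ - 2) / s`, for every `k` and all large `T`, both intervals of Oppermann contain at least `k` primes for ALL integers
`n ≤ T` with `|n - a|_l ≤ T^{-s}`. -/
theorem result (σ : ℝ) (hσ1 : 1 ≤ σ) (hMS : MeanSquare σ) (l : ℕ) [Fact l.Prime] (s : ℝ) (hs : 0 < s) :
    ∃ Z : Set ℤ_[l], dimH Z ≤ ENNReal.ofReal ((2 * σ - 2) / s) ∧ ∀ a : ℤ_[l], a ∉ Z → ∀ k : ℕ,
      ∃ T₀ : ℝ, ∀ T : ℝ, T₀ ≤ T → ∀ n : ℕ, (n : ℝ) ≤ T → ‖(n : ℤ_[l]) - a‖ ≤ T ^ (-s) → KFold k n := by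
  choose Z₀ hZ₀1 hZ₀2 using fun k : ℕ => small (max 2 k) (t := 2 * σ - 2) (by linarith) l hs
  choose Z₁ hZ₁1 hZ₁2 using fun k : ℕ => side hσ1 hMS (g := fun n => n ^ 2) (fun n hn => by nlinarith)
    (fun n => le_rfl) (fun n n' hn h => by nlinarith) k l hs
  choose Z₂ hZ₂1 hZ₂2 using fun k : ℕ => side hσ1 hMS (g := fun n => n ^ 2 - n)
    (fun n hn => by
      have : n + 2 ≤ n ^ 2 := by nlinarith
      omega)
    (fun n => Nat.sub_le _ _)
    (fun n n' hn h => by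
      have h3 : n ≤ n ^ 2 := by nlinarith
      have h4 : n ^ 2 + n' ≤ n' ^ 2 := by nlinarith
      omega) k l hs
  refine ⟨⋃ k, (Z₀ k ∪ (Z₁ k ∪ Z₂ k)), ?_, fun a haZ k => ?_⟩
  · rw [dimH_iUnion]
    refine iSup_le fun k => ?_
    rw [dimH_union, dimH_union]
    exact max_le (hZ₀1 k) (max_le (hZ₁1 k) (hZ₂1 k))
  · obtain ⟨m₀, hm₀⟩ := hZ₀2 k a fun h => haZ (Set.mem_iUnion.2 ⟨k, Or.inl h⟩)
    obtain ⟨m₁, hm₁⟩ := hZ₁2 k a fun h => haZ (Set.mem_iUnion.2 ⟨k, Or.inr (Or.inl h)⟩)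
    obtain ⟨m₂, hm₂⟩ := hZ₂2 k a fun h => haZ (Set.mem_iUnion.2 ⟨k, Or.inr (Or.inr h)⟩)
    refine ⟨max m₀ (max m₁ m₂), fun T hT n hnT hna => ?_⟩
    have hn := hm₀ T ((le_max_left _ _).trans hT) n hnT hna
    have hn2 : 2 ≤ n := (le_max_left _ _).trans hn
    have hkn : k ≤ n := (le_max_right _ _).trans hn
    have h3 := hm₁ T (((le_max_left _ _).trans (le_max_right _ _)).trans hT) n hn2 hkn hnT hna
    have h4 := hm₂ T (((le_max_right _ _).trans (le_max_right _ _)).trans hT) n hn2 hkn hnT hna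
    refine ⟨?_, h3⟩
    have h5 : n ≤ n ^ 2 := by nlinarith
    simp only [Nat.sub_add_cancel h5] at h4
    exact h4

end Pool.Agent.Results.MP_1e9cc8_nt.SquaresInResidueClasses
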